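import Mathlib
import Pool.Agent.Lib.P5ee74f.Gen

set_option autoImplicit false

namespace Pool.Agent.Results.MP_5ee74f_al.CompactTimesFree

universe u

/-- A complete Hausdorff abelian topological group whose open subgroups form a base of
neighbourhoods of `0` and which is generated by a compact subset is topologically isomorphic to
`C × ℤ ^ n` for a compact open subgroup `C` and some `n ≥ 0` (`Fin n → ℤ` is discrete). -/
theorem result (G : Type u) [AddCommGroup G] [UniformSpace G] [IsUniformAddGroup G]
    [T2Space G] [CompleteSpace G]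
    (hU : ∀ s ∈ nhds (0 : G), ∃ U : AddSubgroup G, IsOpen (U : Set G) ∧ (U : Set G) ⊆ s)
    (hK : ∃ K : Set G, IsCompact K ∧ AddSubgroup.closure K = ⊤) :
    ∃ (C : AddSubgroup G) (n : ℕ), IsCompact (C : Set G) ∧ IsOpen (C : Set G) ∧
      Nonempty (G ≃ₜ+ C × (Fin n → ℤ)) :=
  Pool.Agent.P5ee74f.Gen.main hU hK

end Pool.Agent.Results.MP_5ee74f_al.CompactTimesFree
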